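import Pool.Agent.Q35.TT.Stm
import Pool.Agent.Y720.MZ.Tors2

/-! # Project TT (helper35), job NAR: nonarchimedean bound for the abscissas of torsion points -/

set_option autoImplicit false

open WeierstrassCurve Pool.Agent.Y720.MZ

namespace Pool.Agent.Q53.TT.NAR

open Pool.Agent.Q35.TT

variable {K : Type} [Field K] {v : AbsoluteValue K ℝ}

section iter

variable [DecidableEq K]

theorem no_torsion {a b c : K} (m : ℕ) (S : K → Prop)
    (step : ∀ (x y : K) (h : (cv a b c).toAffine.Nonsingular x y), S x →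
      ∃ x' y' h', m • (.some x y h : Pt a b c) = .some x' y' h' ∧ v x < v x' ∧ S x')
    {x y : K} (h : (cv a b c).toAffine.Nonsingular x y) (hx : S x) :
    ∀ n : ℕ, n ≠ 0 → n • (.some x y h : Pt a b c) ≠ 0 := by
  let Q : ℕ → {z : K × K // (cv a b c).toAffine.Nonsingular z.1 z.2 ∧ S z.1} :=
    fun k => Nat.rec ⟨(x, y), h, hx⟩ (fun _ z =>
      ⟨((step z.1.1 z.1.2 z.2.1 z.2.2).choose,
        (step z.1.1 z.1.2 z.2.1 z.2.2).choose_spec.choose),
       (step z.1.1 z.1.2 z.2.1 z.2.2).choose_spec.choose_spec.choose,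
       (step z.1.1 z.1.2 z.2.1 z.2.2).choose_spec.choose_spec.choose_spec.2.2⟩) k
  have hQ0 : ∀ k, m ^ k • (.some x y h : Pt a b c) = .some (Q k).1.1 (Q k).1.2 (Q k).2.1 := by
    intro k
    induction k with
    | zero => rw [pow_zero, one_smul]; rfl
    | succ k ih =>
      rw [pow_succ', mul_smul, ih]
      exact (step (Q k).1.1 (Q k).1.2 (Q k).2.1 (Q k).2.2).choose_spec.choose_spec.choose_spec.1
  have hQ1 : StrictMono fun k => v (Q k).1.1 := by
    refine strictMono_nat_of_lt_succ fun k => ?_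
    exact (step (Q k).1.1 (Q k).1.2 (Q k).2.1 (Q k).2.2).choose_spec.choose_spec.choose_spec.2.1
  intro n hn h0
  have : NeZero n := ⟨hn⟩
  obtain ⟨i, j, hij, he⟩ := Finite.exists_ne_map_eq_of_infinite (fun k : ℕ => ((m ^ k : ℕ) : ZMod n))
  have hsm : ∀ m : ℕ, m • (.some x y h : Pt a b c) = (m % n) • (.some x y h : Pt a b c) := by
    intro m
    conv_lhs => rw [← Nat.div_add_mod m n, add_smul, mul_comm, mul_smul, h0, smul_zero, zero_add]
  have h1 : m ^ i • (.some x y h : Pt a b c) = m ^ j • (.some x y h : Pt a b c) := by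
    rw [hsm, hsm (m ^ j), (ZMod.natCast_eq_natCast_iff' _ _ _).1 he]
  rw [hQ0, hQ0, Affine.Point.some.injEq] at h1
  exact hij (hQ1.injective (by simp only [h1.1]))

theorem dbl_step (hv : IsNonarchimedean v) {a b c : K} (ha : v a ≤ 1) (hb : v b ≤ 1)
    (hc : v c ≤ 1) (h20 : (2 : K) ≠ 0) (h2 : v (2 : K) < 1) (x y : K)
    (h : (cv a b c).toAffine.Nonsingular x y) (hx : 1 < v x) :
    ∃ x' y' h', 2 • (.some x y h : Pt a b c) = .some x' y' h' ∧ v x < v x' ∧ 1 < v x' := by
  have heq := (cv_ns.1 h).1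
  obtain ⟨hy, h1, -, h3, h4⟩ := val_ts hv ha hb hc hx heq
  have hvy := val_y hv ha hb hc hx heq
  have hy2 : 2 * y ≠ 0 := mul_ne_zero h20 hy
  have hx0 : 0 < v x := one_pos.trans hx
  set ℓ := (3 * x ^ 2 + 2 * a * x + b) / (2 * y) with hℓ
  have hℓ' : ℓ * (2 * y) = 3 * x ^ 2 + 2 * a * x + b := div_mul_cancel₀ _ hy2
  obtain ⟨hns, hadd⟩ := dbl_mk h hy2 hℓ'
  have key : (ℓ ^ 2 - a - x - x) * (2 * 2 * y ^ 2) =
      x ^ 4 + (-(2 * b * x ^ 2) - 2 * 2 * 2 * c * x + b ^ 2 - 2 * 2 * (a * c)) := by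
    linear_combination (ℓ * (2 * y) + (3 * x ^ 2 + 2 * a * x + b)) * hℓ' - 4 * (a + 2 * x) * heq
  have hx2 : v x ≤ v x ^ 2 := by nlinarith
  have hx12 : 1 ≤ v x ^ 2 := one_le_pow₀ hx.le
  have h2n := v.nonneg (2 : K)
  have hR : v (x ^ 4 + (-(2 * b * x ^ 2) - 2 * 2 * 2 * c * x + b ^ 2 - 2 * 2 * (a * c))) =
      v x ^ 4 := by
    rw [na_eq hv, map_pow]
    rw [map_pow]
    refine lt_of_le_of_lt (b := v x ^ 2) ?_ ?_
    · refine na_sub hv (na_add hv (na_sub hv ?_ ?_) ?_) ?_
      · rw [v.map_neg, map_mul, map_mul, map_pow]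
        exact mul_le_of_le_one_left (by positivity) (mul_le_one₀ h2.le (v.nonneg _) hb)
      · rw [map_mul, map_mul, map_mul, map_mul]
        refine (mul_le_of_le_one_left hx0.le ?_).trans hx2
        exact mul_le_one₀ (mul_le_one₀ (mul_le_one₀ h2.le h2n h2.le) h2n h2.le) (v.nonneg _) hc
      · rw [map_pow]
        exact (pow_le_one₀ (v.nonneg _) hb).trans hx12
      · rw [map_mul, map_mul, map_mul]
        exact (mul_le_one₀ (mul_le_one₀ h2.le h2n h2.le) (by positivity)
          (mul_le_one₀ ha (v.nonneg _) hc)).trans hx12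
    · have : v x ^ 2 * 1 < v x ^ 2 * v x ^ 2 := by
        apply mul_lt_mul_of_pos_left _ (by positivity)
        exact one_lt_pow₀ hx two_ne_zero
      calc v x ^ 2 = v x ^ 2 * 1 := (mul_one _).symm
        _ < v x ^ 2 * v x ^ 2 := this
        _ = v x ^ 4 := by ring
  have hk := congrArg v key
  rw [hR, map_mul, map_mul, map_mul, map_pow, hvy] at hk
  have hx3 : v (ℓ ^ 2 - a - x - x) * v 2 ^ 2 = v x := by
    apply mul_right_cancel₀ (pow_pos hx0 3).ne'
    linear_combination hk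
  have hpos : 0 < v (ℓ ^ 2 - a - x - x) := by
    by_contra hcon
    push Not at hcon
    have h5 : v (ℓ ^ 2 - a - x - x) = 0 := le_antisymm hcon (v.nonneg _)
    rw [h5, zero_mul] at hx3
    exact hx0.ne hx3
  have hlt : v x < v (ℓ ^ 2 - a - x - x) := by
    rw [← hx3]
    have h6 : v (2 : K) ^ 2 < 1 := pow_lt_one₀ h2n h2 two_ne_zero
    nlinarith
  exact ⟨_, _, hns, by rw [two_smul, hadd], hlt, hx.trans hlt⟩

end iter

/-- integers prime to the residue characteristic are units -/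
theorem unit_of_coprime (hv : IsNonarchimedean v) {p : ℕ} (hp1 : v (p : K) < 1) {k : ℕ}
    (hk : k.Coprime p) : v (k : K) = 1 := by
  refine le_antisymm (na_nat hv k) ?_
  by_contra hcon
  push Not at hcon
  have hint : ∀ z : ℤ, v (z : K) ≤ 1 := by
    intro z
    obtain ⟨n, rfl | rfl⟩ := z.eq_nat_or_neg
    · rw [Int.cast_natCast]; exact na_nat hv n
    · rw [Int.cast_neg, v.map_neg, Int.cast_natCast]; exact na_nat hv n
  obtain ⟨r, s, hrs⟩ := Nat.isCoprime_iff_coprime.2 hk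
  have h1 : (r : K) * (k : K) + (s : K) * (p : K) = 1 := by
    have h := congrArg (fun z : ℤ => (z : K)) hrs
    push_cast at h
    exact h
  have h2 : v ((r : K) * (k : K) + (s : K) * (p : K)) < 1 := by
    refine na_lt hv ?_ ?_
    · rw [map_mul]
      exact (mul_le_of_le_one_left (v.nonneg _) (hint r)).trans_lt hcon
    · rw [map_mul]
      exact (mul_le_of_le_one_left (v.nonneg _) (hint s)).trans_lt hp1
  rw [h1, map_one] at h2
  exact lt_irrefl _ h2

/-- the bound for integral coefficients -/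
theorem int_bound [CharZero K] (hv : IsNonarchimedean v) {p : ℕ} (hp : p.Prime)
    (hp1 : v (p : K) < 1) {a b c x y : K} (ha : v a ≤ 1) (hb : v b ≤ 1) (hc : v c ≤ 1) {n : ℕ}
    (hn : n ≠ 0) (ht : TorP a b c x y n) : v x * v (p : K) ≤ 1 := by
  classical
  by_contra hcon
  push Not at hcon
  have hp0 : 0 ≤ v (p : K) := v.nonneg _
  have hx1 : 1 < v x := by
    by_contra h1
    push Not at h1
    have : v x * v (p : K) ≤ 1 * 1 := by gcongr
    linarith
  obtain ⟨h, hnP⟩ := ht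
  rcases Nat.lt_or_ge p 3 with h3 | h3
  · have hp2 : p = 2 := by
      have := hp.two_le
      omega
    subst hp2
    have h2 : v (2 : K) < 1 := by exact_mod_cast hp1
    let _ : DecidableEq K := Classical.decEq K
    exact no_torsion (v := v) 2 (fun x => 1 < v x)
      (fun x y h hx => dbl_step hv ha hb hc two_ne_zero h2 x y h hx) h hx1 n hn hnP
  · let _ : DecidableEq K := Classical.decEq K
    exact infinite_order hv ha hb hc h3 (fun k hk1 hk2 =>
      unit_of_coprime hv hp1 ((Nat.Prime.coprime_iff_not_dvd hp).2 (fun hd =>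
        absurd (Nat.le_of_dvd (by omega) hd) (by omega))).symm) hp1 h hcon n hn hnP

/-- **S_NAR** -/
theorem nar (h : S_TRN) : S_NAR := by
  intro K _ _ v hv hpp A hA
  obtain ⟨p, hp, hp1⟩ := hpp
  have hp00 : (p : K) ≠ 0 := Nat.cast_ne_zero.2 hp.ne_zero
  have hp0 : 0 < v (p : K) := v.pos hp00
  obtain ⟨k, hk⟩ := exists_pow_lt_of_lt_one (show (0 : ℝ) < 1 / A by positivity) hp1
  set u : K := ((p : K) ^ k)⁻¹ with hu
  have hu0 : u ≠ 0 := inv_ne_zero (pow_ne_zero _ hp00)
  have huv : A ≤ v u := by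
    rw [hu, map_inv₀, map_pow]
    rw [lt_div_iff₀ (by linarith)] at hk
    rw [le_inv_comm₀ (by linarith) (by positivity), ← one_div, le_div_iff₀ (by linarith)]
    exact hk.le
  have hu1 : 1 ≤ v u := hA.trans huv
  have hu2 : A ≤ v u ^ 2 := huv.trans (le_self_pow₀ hu1 two_ne_zero)
  have hu4 : A ≤ v u ^ 4 := huv.trans (le_self_pow₀ hu1 (by norm_num))
  have hu6 : A ≤ v u ^ 6 := huv.trans (le_self_pow₀ hu1 (by norm_num))
  refine ⟨v u ^ 2 / v (p : K), ?_, ?_⟩
  · rw [le_div_iff₀ hp0, one_mul]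
    exact hp1.le.trans (hA.trans hu2)
  · intro a b c x y ha hb hc hD n hn ht
    have h1 := h K a b c x y u 0 n hu0 hD ht
    have e1 : (a + 3 * 0) / u ^ 2 = a / u ^ 2 := by ring
    have e2 : (b + 2 * 0 * a + 3 * 0 ^ 2) / u ^ 4 = b / u ^ 4 := by ring
    have e3 : (c + 0 * b + 0 ^ 2 * a + 0 ^ 3) / u ^ 6 = c / u ^ 6 := by ring
    rw [e1, e2, e3, sub_zero] at h1
    have hv1 : v (a / u ^ 2) ≤ 1 := by
      rw [map_div₀, map_pow, div_le_one (by positivity)]
      exact ha.trans hu2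
    have hv2 : v (b / u ^ 4) ≤ 1 := by
      rw [map_div₀, map_pow, div_le_one (by positivity)]
      exact hb.trans hu4
    have hv3 : v (c / u ^ 6) ≤ 1 := by
      rw [map_div₀, map_pow, div_le_one (by positivity)]
      exact hc.trans hu6
    have h2 := int_bound hv hp hp1 hv1 hv2 hv3 hn h1
    rw [map_div₀, map_pow, div_mul_eq_mul_div, div_le_one (by positivity)] at h2
    rw [pow_zero, mul_one, le_div_iff₀ hp0]
    exact h2

end Pool.Agent.Q53.TT.NAR
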