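import Pool.Agent.Q190.TT.Lot
import Pool.Agent.Q190.TT.Gln
import Pool.Agent.Q238.TT.Clo

/-!
# Project TT (helper35), job ORN: the order of the torsion points in the family, twisted (helper53)
-/

set_option autoImplicit false

open Pool.Agent.Y720.MZ MvPolynomial Height AdmissibleAbsValues Pool.Agent.Q35.TT

namespace Pool.Agent.Q53.TT.ORN

/-! ### The discriminant as a polynomial -/

section deg

variable {K : Type} [Field K] {n : ℕ} {j : Fin n}

lemma d_add {P Q : MvPolynomial (Fin n) K} {d : ℕ} (hP : P.degreeOf j ≤ d)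
    (hQ : Q.degreeOf j ≤ d) : (P + Q).degreeOf j ≤ d :=
  (degreeOf_add_le j P Q).trans (max_le hP hQ)

lemma d_mul {P Q : MvPolynomial (Fin n) K} {d e : ℕ} (hP : P.degreeOf j ≤ d)
    (hQ : Q.degreeOf j ≤ e) : (P * Q).degreeOf j ≤ d + e :=
  (degreeOf_mul_le j P Q).trans (add_le_add hP hQ)

lemma d_C {P : MvPolynomial (Fin n) K} {d : ℕ} (r : K) (hP : P.degreeOf j ≤ d) :
    (C r * P).degreeOf j ≤ d :=
  (degreeOf_C_mul_le P j r).trans hP

lemma lp_deg (f : MvPolynomial (Fin n) K) (hf : ∀ j, f.degreeOf j ≤ 4) (i : Fin n) (k : Fin 5) :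
    (Pool.Agent.Q238.TT.lp f i k).degreeOf j ≤ 4 := by
  classical
  unfold Pool.Agent.Q238.TT.lp
  refine (degreeOf_sum_le j _ _).trans (Finset.sup_le fun m hm => ?_)
  refine d_C _ ?_
  refine (degreeOf_prod_le j _ _).trans ?_
  have h1 : ∀ l ∈ Finset.univ.erase i, degreeOf j ((X l : MvPolynomial (Fin n) K) ^ m l) ≤
      if l = j then m j else 0 := by
    intro l _
    refine (degreeOf_pow_le j _ _).trans ?_
    rw [degreeOf_X]
    split_ifs with h1 h2 h2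
    · rw [mul_one, h1]
    · exact absurd h1.symm h2
    · exact absurd h2.symm h1
    · rw [mul_zero]
  refine (Finset.sum_le_sum h1).trans ?_
  rw [Finset.sum_ite_eq']
  have h2 : m j ≤ 4 := (monomial_le_degreeOf j (Finset.mem_filter.1 hm).1).trans (hf j)
  split_ifs
  · exact h2
  · exact Nat.zero_le _

lemma dsc_deg {a b c : MvPolynomial (Fin n) K} (ha : a.degreeOf j ≤ 4) (hb : b.degreeOf j ≤ 8)
    (hc : c.degreeOf j ≤ 12) : (dsc a b c).degreeOf j ≤ 24 := by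
  have e : dsc a b c = a * a * (b * b) + C (-4) * (b * b * b) + C (-4) * (a * a * a * c) +
      C (-27) * (c * c) + C 18 * (a * b * c) := by
    unfold dsc
    simp only [map_neg, map_ofNat]
    ring
  rw [e]
  refine d_add (d_add (d_add (d_add ?_ (d_C _ ?_)) (d_C _ ?_)) (d_C _ ?_)) (d_C _ ?_)
  · exact d_mul (d_mul ha ha) (d_mul hb hb)
  · exact d_mul (d_mul hb hb) hb
  · exact d_mul (d_mul (d_mul ha ha) ha) hc
  · exact d_mul hc hc
  · exact d_mul (d_mul ha hb) hc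

lemma dc_deg {a : Fin 5 → MvPolynomial (Fin n) K} (ha : ∀ k, (a k).degreeOf j ≤ 4) :
    (dc (a 0) (a 1) (a 2) (a 3) (a 4)).degreeOf j ≤ 24 := by
  unfold dc
  refine dsc_deg (ha 2) ?_ ?_
  · have e : a 1 * a 3 - 4 * a 0 * a 4 = a 1 * a 3 + C (-4) * (a 0 * a 4) := by
      simp only [map_neg, map_ofNat]
      ring
    rw [e]
    exact d_add (d_mul (ha 1) (ha 3)) (d_C _ (d_mul (ha 0) (ha 4)))
  · have e : a 1 ^ 2 * a 4 + a 0 * a 3 ^ 2 - 4 * a 0 * a 2 * a 4 =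
        a 1 * a 1 * a 4 + a 0 * a 3 * a 3 + C (-4) * (a 0 * a 2 * a 4) := by
      simp only [map_neg, map_ofNat]
      ring
    rw [e]
    exact d_add (d_add (d_mul (d_mul (ha 1) (ha 1)) (ha 4)) (d_mul (d_mul (ha 0) (ha 3)) (ha 3)))
      (d_C _ (d_mul (d_mul (ha 0) (ha 2)) (ha 4)))

/-- the discriminant of the family as a polynomial -/
noncomputable def pd (f : MvPolynomial (Fin n) K) (i : Fin n) : MvPolynomial (Fin n) K :=
  dc (Pool.Agent.Q238.TT.lp f i 0) (Pool.Agent.Q238.TT.lp f i 1) (Pool.Agent.Q238.TT.lp f i 2)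
    (Pool.Agent.Q238.TT.lp f i 3) (Pool.Agent.Q238.TT.lp f i 4)

lemma pd_deg (f : MvPolynomial (Fin n) K) (hf : ∀ j, f.degreeOf j ≤ 4) (i : Fin n) :
    (pd f i).degreeOf j ≤ 24 :=
  dc_deg (a := fun k => Pool.Agent.Q238.TT.lp f i k) fun k => lp_deg f hf i k

lemma pd_eval (f : MvPolynomial (Fin n) K) (i : Fin n) (z : Fin n → K) :
    eval z (pd f i) = dc (lc f (af z) i 0) (lc f (af z) i 1) (lc f (af z) i 2) (lc f (af z) i 3)
      (lc f (af z) i 4) := by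
  simp only [← Pool.Agent.Q238.TT.eval_lp]
  unfold pd dc dsc
  simp only [map_add, map_sub, map_mul, map_pow, map_ofNat]

end deg

/-! ### Two points with congruent abscissas -/

section val

variable {K : Type} [Field K] {v : AbsoluteValue K ℝ}

lemma collide (hv : IsNonarchimedean v) (h2 : v 2 = 1) {b c g x₁ y₁ x₂ y₂ : K} (hb : v b ≤ 1)
    (hc : v c ≤ 1) (hd : v (dsc 0 b c) = 1) (hg : g ≠ 0)
    (E1 : y₁ ^ 2 = x₁ ^ 3 + 0 * x₁ ^ 2 + g ^ 2 * b * x₁ + g ^ 3 * c)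
    (E2 : y₂ ^ 2 = x₂ ^ 3 + 0 * x₂ ^ 2 + g ^ 2 * b * x₂ + g ^ 3 * c) (hx : x₁ ≠ x₂)
    (hx1 : v x₁ ≤ v g) (hx2 : v x₂ ≤ v g)
    (hp : v (((y₁ - y₂) / (x₁ - x₂)) ^ 2 - 0 - x₁ - x₂) ≤ v g)
    (hm : v (((y₁ - -y₂) / (x₁ - x₂)) ^ 2 - 0 - x₁ - x₂) ≤ v g) :
    ¬ v (x₁ / g - x₂ / g) < 1 := by
  intro hlt
  have hgp : 0 < v g := v.pos hg
  obtain ⟨ξ, hξ⟩ : ∃ ξ : K, ξ = x₁ / g := ⟨_, rfl⟩
  obtain ⟨ζ, hζ⟩ : ∃ ζ : K, ζ = x₂ / g := ⟨_, rfl⟩
  have ex1 : x₁ = g * ξ := by rw [hξ]; field_simp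
  have ex2 : x₂ = g * ζ := by rw [hζ]; field_simp
  have vξ : v ξ ≤ 1 := by
    rw [hξ, map_div₀, div_le_one hgp]
    exact hx1
  have vζ : v ζ ≤ 1 := by
    rw [hζ, map_div₀, div_le_one hgp]
    exact hx2
  rw [← hξ, ← hζ] at hlt
  have hxs : x₁ - x₂ ≠ 0 := sub_ne_zero.2 hx
  obtain ⟨p, hpd⟩ : ∃ p : K, p = (y₁ - y₂) / (x₁ - x₂) := ⟨_, rfl⟩
  obtain ⟨q, hqd⟩ : ∃ q : K, q = (y₁ - -y₂) / (x₁ - x₂) := ⟨_, rfl⟩
  rw [← hpd] at hp
  rw [← hqd] at hm
  have ep : y₁ - y₂ = p * (g * (ξ - ζ)) := by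
    have : p * (x₁ - x₂) = y₁ - y₂ := by
      rw [hpd]
      field_simp
    rw [← this, ex1, ex2]
    ring
  have eq' : y₁ + y₂ = q * (g * (ξ - ζ)) := by
    have : q * (x₁ - x₂) = y₁ + y₂ := by
      rw [hqd]
      field_simp
      ring
    rw [← this, ex1, ex2]
    ring
  have vsq : ∀ t : K, v (t ^ 2 - 0 - x₁ - x₂) ≤ v g → v t ^ 2 ≤ v g := by
    intro t ht
    have e : t ^ 2 = (t ^ 2 - 0 - x₁ - x₂) + x₁ + x₂ := by ring
    rw [← map_pow, e]
    exact na_add hv (na_add hv ht hx1) hx2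
  have vp := vsq p hp
  have vq := vsq q hm
  have vpn := v.nonneg p
  have vqn := v.nonneg q
  have vdn := v.nonneg (ξ - ζ)
  -- the ordinate
  have vpq : v (p + q) ^ 2 ≤ v g := by
    rcases le_total (v p) (v q) with h | h
    · exact (pow_le_pow_left₀ (v.nonneg _) (na_add hv h le_rfl) 2).trans vq
    · exact (pow_le_pow_left₀ (v.nonneg _) (na_add hv le_rfl h) 2).trans vp
  have ey : 2 * y₁ = (p + q) * (g * (ξ - ζ)) := by
    linear_combination ep + eq'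
  have vy : v y₁ ^ 2 < v g ^ 3 := by
    have h1 : v y₁ = v (p + q) * (v g * v (ξ - ζ)) := by
      have := congrArg v ey
      rw [map_mul, h2, one_mul, map_mul, map_mul] at this
      exact this
    rw [h1]
    have h3 : v (ξ - ζ) ^ 2 < 1 := pow_lt_one₀ vdn hlt two_ne_zero
    calc (v (p + q) * (v g * v (ξ - ζ))) ^ 2 = v (p + q) ^ 2 * (v g ^ 2 * v (ξ - ζ) ^ 2) := by ring
      _ ≤ v g * (v g ^ 2 * v (ξ - ζ) ^ 2) := mul_le_mul_of_nonneg_right vpq (by positivity)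
      _ = v g ^ 3 * v (ξ - ζ) ^ 2 := by ring
      _ < v g ^ 3 * 1 := mul_lt_mul_of_pos_left h3 (by positivity)
      _ = v g ^ 3 := mul_one _
  have vcub : v (ξ ^ 3 + b * ξ + c) < 1 := by
    have e : y₁ ^ 2 = g ^ 3 * (ξ ^ 3 + b * ξ + c) := by
      rw [E1, ex1]
      ring
    have h1 := congrArg v e
    rw [map_pow, map_mul, map_pow] at h1
    rw [h1] at vy
    by_contra hcon
    push Not at hcon
    have : v g ^ 3 * 1 ≤ v g ^ 3 * v (ξ ^ 3 + b * ξ + c) :=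
      mul_le_mul_of_nonneg_left hcon (by positivity)
    linarith
  -- the derivative
  have vder0 : v (ξ ^ 2 + ξ * ζ + ζ ^ 2 + b) < 1 := by
    have e : p * q * (g * (ξ - ζ)) = g ^ 2 * (ξ ^ 2 + ξ * ζ + ζ ^ 2 + b) := by
      apply mul_left_cancel₀ hxs
      have : (x₁ - x₂) = g * (ξ - ζ) := by rw [ex1, ex2]; ring
      have h3 : (y₁ - y₂) * (y₁ + y₂) = y₁ ^ 2 - y₂ ^ 2 := by ring
      have h4 : y₁ ^ 2 - y₂ ^ 2 = g ^ 3 * ((ξ - ζ) * (ξ ^ 2 + ξ * ζ + ζ ^ 2 + b)) := by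
        rw [E1, E2, ex1, ex2]
        ring
      rw [this]
      calc g * (ξ - ζ) * (p * q * (g * (ξ - ζ))) = (y₁ - y₂) * (y₁ + y₂) := by
            rw [ep, eq']
            ring
        _ = _ := by
            rw [h3, h4]
            ring
    have h1 := congrArg v e
    rw [map_mul, map_mul, map_mul, map_mul, map_pow] at h1
    have h3 : v p * v q ≤ v g := by
      rcases le_total (v p) (v q) with h | h
      · calc v p * v q ≤ v q * v q := mul_le_mul_of_nonneg_right h vqn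
          _ = v q ^ 2 := (sq _).symm
          _ ≤ v g := vq
      · calc v p * v q ≤ v p * v p := mul_le_mul_of_nonneg_left h vpn
          _ = v p ^ 2 := (sq _).symm
          _ ≤ v g := vp
    by_contra hcon
    push Not at hcon
    have h4 : v g ^ 2 * 1 ≤ v g ^ 2 * v (ξ ^ 2 + ξ * ζ + ζ ^ 2 + b) :=
      mul_le_mul_of_nonneg_left hcon (by positivity)
    have h5 : v p * v q * (v g * v (ξ - ζ)) ≤ v g * (v g * v (ξ - ζ)) :=
      mul_le_mul_of_nonneg_right h3 (by positivity)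
    have h6 : v g * (v g * v (ξ - ζ)) < v g * (v g * 1) :=
      mul_lt_mul_of_pos_left (mul_lt_mul_of_pos_left hlt hgp) hgp
    nlinarith
  have n2 : v (2 : K) ≤ 1 := h2.le
  have hnat : ∀ k : ℕ, v (k : K) ≤ 1 := fun k => na_nat hv k
  have mul1 : ∀ {s t : K}, v s ≤ 1 → v t ≤ 1 → v (s * t) ≤ 1 := by
    intro s t hs ht
    rw [map_mul]
    exact mul_le_one₀ hs (v.nonneg _) ht
  have mullt : ∀ {s t : K}, v s ≤ 1 → v t < 1 → v (s * t) < 1 := by
    intro s t hs ht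
    rw [map_mul]
    exact (mul_le_of_le_one_left (v.nonneg _) hs).trans_lt ht
  have vder : v (3 * ξ ^ 2 + b) < 1 := by
    have e : 3 * ξ ^ 2 + b = (ξ ^ 2 + ξ * ζ + ζ ^ 2 + b) + (2 * ξ + ζ) * (ξ - ζ) := by ring
    rw [e]
    exact na_lt hv vder0 (mullt (na_add hv (mul1 n2 vξ) vζ) hlt)
  have hres : dsc 0 b c = (((18 : ℕ) : K) * b * ξ - ((27 : ℕ) : K) * c) * (ξ ^ 3 + b * ξ + c) +
      (((9 : ℕ) : K) * c * ξ - ((6 : ℕ) : K) * b * ξ ^ 2 - ((4 : ℕ) : K) * b ^ 2) *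
        (3 * ξ ^ 2 + b) := by
    unfold dsc
    push_cast
    ring
  have hlast : v (dsc 0 b c) < 1 := by
    rw [hres]
    refine na_lt hv (mullt ?_ vcub) (mullt ?_ vder)
    · exact na_sub hv (mul1 (mul1 (hnat _) hb) vξ) (mul1 (hnat _) hc)
    · refine na_sub hv (na_sub hv (mul1 (mul1 (hnat _) hc) vξ) (mul1 (mul1 (hnat _) hb) ?_))
        (mul1 (hnat _) ?_)
      · rw [map_pow]
        exact pow_le_one₀ (v.nonneg _) vξ
      · rw [map_pow]
        exact pow_le_one₀ (v.nonneg _) hb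
  rw [hd] at hlast
  exact lt_irrefl _ hlast

end val

/-! ### The order of a point -/

section order

variable {K : Type} [Field K] {v : AbsoluteValue K ℝ}

lemma card_three (h2 : v 2 = 1) {F : Type} [Fintype F] (ρ : K → F)
    (hρ : ∀ x y, v x ≤ 1 → v y ≤ 1 → ρ x = ρ y → v (x - y) < 1) : 3 ≤ Fintype.card F := by
  have h01 : ρ 0 ≠ ρ 1 := by
    intro h
    have := hρ 0 1 (by rw [map_zero]; exact zero_le_one) (by rw [map_one]) h
    rw [zero_sub, v.map_neg, map_one] at this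
    exact lt_irrefl _ this
  have h12 : ρ 1 ≠ ρ 2 := by
    intro h
    have := hρ 1 2 (by rw [map_one]) h2.le h
    rw [show (1 : K) - 2 = -1 by norm_num, v.map_neg, map_one] at this
    exact lt_irrefl _ this
  have h02 : ρ 0 ≠ ρ 2 := by
    intro h
    have := hρ 0 2 (by rw [map_zero]; exact zero_le_one) h2.le h
    rw [zero_sub, v.map_neg, h2] at this
    exact lt_irrefl _ this
  classical
  have : ({ρ 0, ρ 1, ρ 2} : Finset F).card = 3 := Finset.card_eq_three.2 ⟨_, _, _, h01, h02, h12, rfl⟩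
  rw [← this]
  exact Finset.card_le_univ _

theorem order_bound (hv : IsNonarchimedean v) (h2 : v 2 = 1) (hL : LBT v 1 1 0) {b c g x y : K}
    (hb : v b ≤ 1) (hc : v c ≤ 1) (hd : v (dsc 0 b c) = 1) (hg : g ≠ 0) {N : ℕ} (hN : N ≠ 0)
    (hT : TorP 0 (g ^ 2 * b) (g ^ 3 * c) x y N) {F : Type} [Fintype F] (ρ : K → F)
    (hρ : ∀ x y, v x ≤ 1 → v y ≤ 1 → ρ x = ρ y → v (x - y) < 1) :
    ∃ N' : ℕ, N' ≠ 0 ∧ TorP 0 (g ^ 2 * b) (g ^ 3 * c) x y N' ∧
      N' ≤ Fintype.card F ^ 2 + 1 := by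
  have hgp : 0 < v g := v.pos hg
  have hd0 : dsc 0 b c ≠ 0 := by
    intro h
    rw [h, map_zero] at hd
    exact zero_ne_one hd
  -- the abscissas of the torsion points
  have hX : ∀ (x' y' : K), TorP 0 (g ^ 2 * b) (g ^ 3 * c) x' y' N → v x' ≤ v g := by
    intro x' y' h
    have := hL 0 b c x' y' g (by rw [map_zero]; exact zero_le_one) hb hc hd0 hg N hN
      (by rw [mul_zero]; exact h)
    rw [pow_zero, mul_one, one_mul] at this
    exact this
  let _ : DecidableEq K := Classical.decEq K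
  obtain ⟨hns, hN0⟩ := hT
  obtain ⟨P, hP⟩ : ∃ P : Pt 0 (g ^ 2 * b) (g ^ 3 * c), P = .some x y hns := ⟨_, rfl⟩
  rw [← hP] at hN0
  have hfin : IsOfFinAddOrder P := isOfFinAddOrder_iff_nsmul_eq_zero.2
    ⟨N, Nat.pos_of_ne_zero hN, hN0⟩
  have hpos : 0 < addOrderOf P := hfin.addOrderOf_pos
  refine ⟨addOrderOf P, hpos.ne', ⟨hns, ?_⟩, ?_⟩
  · rw [← hP]
    exact addOrderOf_nsmul_eq_zero P
  have hne : ∀ k : ℕ, 0 < k → k < addOrderOf P → k • P ≠ 0 := by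
    intro k hk hk' h
    exact absurd (Nat.le_of_dvd hk (addOrderOf_dvd_of_nsmul_eq_zero h)) (not_le.2 hk')
  have hkill : ∀ z : ℤ, N • (z • P) = 0 := by
    intro z
    rw [smul_comm, hN0, smul_zero]
  -- coordinates
  have hco : ∀ Q : Pt 0 (g ^ 2 * b) (g ^ 3 * c), ∃ x' y' : K, Q ≠ 0 → ∃ h', Q = .some x' y' h' := by
    intro Q
    rcases Q with _ | ⟨x', y', h'⟩
    · exact ⟨0, 0, fun h => absurd rfl h⟩
    · exact ⟨x', y', fun _ => ⟨h', rfl⟩⟩
  choose X Y hXY using hco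
  have hXle : ∀ k : ℕ, 0 < k → k < addOrderOf P → v (X (k • P)) ≤ v g := by
    intro k hk hk'
    obtain ⟨h', e⟩ := hXY (k • P) (hne k hk hk')
    refine hX _ (Y (k • P)) ⟨h', ?_⟩
    rw [← e]
    have := hkill k
    rwa [natCast_zsmul] at this
  have hinj : ∀ k l : ℕ, 0 < k → k < l → k + l < addOrderOf P →
      ρ (X (k • P) / g) ≠ ρ (X (l • P) / g) := by
    intro k l hk hkl hlt hr
    have hk' : k < addOrderOf P := by omega
    have hl' : l < addOrderOf P := by omega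
    have hl0 : 0 < l := by omega
    obtain ⟨n1, e1⟩ := hXY (k • P) (hne k hk hk')
    obtain ⟨n2, e2⟩ := hXY (l • P) (hne l hl0 hl')
    have vx1 := hXle k hk hk'
    have vx2 := hXle l hl0 hl'
    have hdiv : ∀ t : K, v t ≤ v g → v (t / g) ≤ 1 := by
      intro t ht
      rw [map_div₀, div_le_one hgp]
      exact ht
    have hlt1 := hρ _ _ (hdiv _ vx1) (hdiv _ vx2) hr
    obtain ⟨x₁, hx₁⟩ : ∃ t : K, t = X (k • P) := ⟨_, rfl⟩
    obtain ⟨y₁, hy₁⟩ : ∃ t : K, t = Y (k • P) := ⟨_, rfl⟩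
    obtain ⟨x₂, hx₂⟩ : ∃ t : K, t = X (l • P) := ⟨_, rfl⟩
    obtain ⟨y₂, hy₂⟩ : ∃ t : K, t = Y (l • P) := ⟨_, rfl⟩
    rw [← hx₁, ← hx₂] at hlt1
    rw [← hx₁] at vx1
    rw [← hx₂] at vx2
    revert n1 n2
    rw [← hx₁, ← hx₂, ← hy₁, ← hy₂]
    intro n1 e1 n2 e2
    have hadd : k • P + l • P ≠ 0 := by
      rw [← add_nsmul]
      exact hne _ (by omega) hlt
    have hsub : k • P + -(l • P) ≠ 0 := by
      intro h
      have h3 : l • P = (l - k) • P + k • P := by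
        rw [← add_nsmul]
        congr 1
        omega
      rw [add_neg_eq_zero] at h
      rw [← h] at h3
      have h4 : (l - k) • P = 0 := by
        have := h3.symm
        rwa [add_eq_right] at this
      exact hne (l - k) (by omega) (by omega) h4
    have hkadd : N • (k • P + l • P) = 0 := by
      have := hkill ((k : ℤ) + l)
      rwa [add_zsmul, natCast_zsmul, natCast_zsmul] at this
    have hksub : N • (k • P + -(l • P)) = 0 := by
      have := hkill ((k : ℤ) + -(l : ℤ))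
      rwa [add_zsmul, neg_zsmul, natCast_zsmul, natCast_zsmul] at this
    by_cases hxx : x₁ = x₂
    · subst hxx
      rcases eq_or_neg n1 n2 with h | h
      · rw [← e1, ← e2] at h
        exact hsub (add_neg_eq_zero.2 h)
      · rw [← e1, ← e2] at h
        exact hadd (by rw [h, neg_add_cancel])
    · have hxs : x₁ - x₂ ≠ 0 := sub_ne_zero.2 hxx
      obtain ⟨n2', e2'⟩ := neg_mk n2
      obtain ⟨n3, e3⟩ := add_mk n1 n2 hxx (ℓ := (y₁ - y₂) / (x₁ - x₂)) (by field_simp)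
      obtain ⟨n4, e4⟩ := add_mk n1 n2' hxx (ℓ := (y₁ - -y₂) / (x₁ - x₂)) (by field_simp)
      rw [← e2', ← e2, ← e1] at e4
      rw [← e1, ← e2] at e3
      refine collide hv h2 hb hc hd hg (cv_ns.1 n1).1 (cv_ns.1 n2).1 hxx vx1 vx2 ?_ ?_ hlt1
      · exact hX _ _ ⟨n3, by rw [← e3]; exact hkadd⟩
      · exact hX _ _ ⟨n4, by rw [← e4]; exact hksub⟩
  have hcard : (addOrderOf P - 1) / 2 ≤ Fintype.card F := by
    have h3 : (Finset.Icc 1 ((addOrderOf P - 1) / 2)).card ≤ (Finset.univ : Finset F).card := by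
      apply Finset.card_le_card_of_injOn (fun k => ρ (X (k • P) / g))
      · intro k _
        exact Finset.mem_coe.2 (Finset.mem_univ _)
      · intro k hk l hl hkl
        rw [Finset.mem_coe, Finset.mem_Icc] at hk hl
        rcases lt_trichotomy k l with h | h | h
        · exact absurd hkl (hinj k l (by omega) h (by omega))
        · exact h
        · exact absurd hkl.symm (hinj l k (by omega) h (by omega))
    rw [Nat.card_Icc] at h3
    exact h3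
  have h3 := card_three h2 ρ hρ
  have h4 : addOrderOf P ≤ 2 * Fintype.card F + 2 := by omega
  nlinarith

end order

/-! ### Translation and scaling -/

section trn

variable {K : Type} [Field K] [CharZero K]

lemma trn_iff (h : S_TRN) (a b c x y u r : K) (n : ℕ) (hu : u ≠ 0) (hd : dsc a b c ≠ 0) :
    TorP a b c x y n ↔ TorP ((a + 3 * r) / u ^ 2) ((b + 2 * r * a + 3 * r ^ 2) / u ^ 4)
      ((c + r * b + r ^ 2 * a + r ^ 3) / u ^ 6) ((x - r) / u ^ 2) (y / u ^ 3) n := by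
  refine ⟨h K a b c x y u r n hu hd, fun hT => ?_⟩
  have hd' : dsc ((a + 3 * r) / u ^ 2) ((b + 2 * r * a + 3 * r ^ 2) / u ^ 4)
      ((c + r * b + r ^ 2 * a + r ^ 3) / u ^ 6) ≠ 0 := by
    rw [Pool.Agent.Q224.TT.Loc.dsc_scale _ _ _ _ _ hu]
    exact div_ne_zero hd (pow_ne_zero _ hu)
  have hback := h K _ _ _ _ _ (1 / u) (-r / u ^ 2) n (one_div_ne_zero hu) hd' hT
  have g1 : ((a + 3 * r) / u ^ 2 + 3 * (-r / u ^ 2)) / (1 / u) ^ 2 = a := by
    field_simp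
    ring
  have g2 : ((b + 2 * r * a + 3 * r ^ 2) / u ^ 4 + 2 * (-r / u ^ 2) * ((a + 3 * r) / u ^ 2) +
      3 * (-r / u ^ 2) ^ 2) / (1 / u) ^ 4 = b := by
    field_simp
    ring
  have g3 : ((c + r * b + r ^ 2 * a + r ^ 3) / u ^ 6 +
      (-r / u ^ 2) * ((b + 2 * r * a + 3 * r ^ 2) / u ^ 4) +
      (-r / u ^ 2) ^ 2 * ((a + 3 * r) / u ^ 2) + (-r / u ^ 2) ^ 3) / (1 / u) ^ 6 = c := by
    field_simp
    ring
  have g4 : ((x - r) / u ^ 2 - -r / u ^ 2) / (1 / u) ^ 2 = x := by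
    field_simp
    ring
  have g5 : y / u ^ 3 / (1 / u) ^ 3 = y := by
    field_simp
  rw [g1, g2, g3, g4, g5] at hback
  exact hback

open Pool.Agent.Q224.TT.Loc (II JJ tay0 tay1 tay2 tay3 bq1 dsc_scale)

/-- the short model of the twisted curve -/
theorem key (h : S_TRN) (a : Fin 5 → K) (m s : K) (hm : m ≠ 0) (hg : bq a ![1, s] ≠ 0)
    (hdc : dc (a 0) (a 1) (a 2) (a 3) (a 4) ≠ 0) :
    dsc 0 (-II a / (3 * m ^ 8)) (-JJ a / (27 * m ^ 12)) =
      dc (a 0) (a 1) (a 2) (a 3) (a 4) / m ^ 24 ∧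
    ∃ x' y' : K, ∀ n, TorT a s n ↔
      TorP 0 (bq a ![1, s] ^ 2 * (-II a / (3 * m ^ 8)))
        (bq a ![1, s] ^ 3 * (-JJ a / (27 * m ^ 12))) x' y' n := by
  have hu : m ^ 2 ≠ 0 := pow_ne_zero 2 hm
  have hdsc : bq a ![1, s] ^ 6 * dc (a 0) (a 1) (a 2) (a 3) (a 4) ≠ 0 :=
    mul_ne_zero (pow_ne_zero _ hg) hdc
  have hdsc2 := hdsc
  rw [← Pool.Agent.Q190.TT.dsc_TP a _ s] at hdsc2
  have h2 := dsc_scale (bq a ![1, s] * tay a s 1)
    (bq a ![1, s] ^ 2 * (tay a s 0 * tay a s 2 - 4 * bq a ![1, s] * tay a s 3))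
    (bq a ![1, s] ^ 3 * (tay a s 0 ^ 2 * tay a s 3 + bq a ![1, s] * tay a s 2 ^ 2 -
      4 * bq a ![1, s] * tay a s 1 * tay a s 3)) (-(bq a ![1, s] * tay a s 1) / 3) (m ^ 2) hu
  have e1 : (bq a ![1, s] * tay a s 1 + 3 * (-(bq a ![1, s] * tay a s 1) / 3)) / (m ^ 2) ^ 2 =
      0 := by
    field_simp
    ring
  have i2 : -II a = 3 * (tay a s 0 * tay a s 2 - 4 * bq a ![1, s] * tay a s 3) - tay a s 1 ^ 2 := by
    unfold II
    rw [bq1, tay0, tay1, tay2, tay3]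
    ring
  have i3 : -JJ a = 27 * (tay a s 0 ^ 2 * tay a s 3 + bq a ![1, s] * tay a s 2 ^ 2 -
      4 * bq a ![1, s] * tay a s 1 * tay a s 3) -
      9 * tay a s 1 * (tay a s 0 * tay a s 2 - 4 * bq a ![1, s] * tay a s 3) +
      2 * tay a s 1 ^ 3 := by
    unfold JJ
    rw [bq1, tay0, tay1, tay2, tay3]
    ring
  have e2 : (bq a ![1, s] ^ 2 * (tay a s 0 * tay a s 2 - 4 * bq a ![1, s] * tay a s 3) +
      2 * (-(bq a ![1, s] * tay a s 1) / 3) * (bq a ![1, s] * tay a s 1) +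
      3 * (-(bq a ![1, s] * tay a s 1) / 3) ^ 2) / (m ^ 2) ^ 4 =
      bq a ![1, s] ^ 2 * (-II a / (3 * m ^ 8)) := by
    rw [i2]
    field_simp
    ring
  have e3 : (bq a ![1, s] ^ 3 * (tay a s 0 ^ 2 * tay a s 3 + bq a ![1, s] * tay a s 2 ^ 2 -
      4 * bq a ![1, s] * tay a s 1 * tay a s 3) +
      -(bq a ![1, s] * tay a s 1) / 3 *
        (bq a ![1, s] ^ 2 * (tay a s 0 * tay a s 2 - 4 * bq a ![1, s] * tay a s 3)) +
      (-(bq a ![1, s] * tay a s 1) / 3) ^ 2 * (bq a ![1, s] * tay a s 1) +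
      (-(bq a ![1, s] * tay a s 1) / 3) ^ 3) / (m ^ 2) ^ 6 =
      bq a ![1, s] ^ 3 * (-JJ a / (27 * m ^ 12)) := by
    rw [i3]
    field_simp
    ring
  rw [e1, e2, e3, Pool.Agent.Q190.TT.dsc_TP] at h2
  constructor
  · have h3 : dsc 0 (bq a ![1, s] ^ 2 * (-II a / (3 * m ^ 8)))
        (bq a ![1, s] ^ 3 * (-JJ a / (27 * m ^ 12))) =
      bq a ![1, s] ^ 6 * dsc 0 (-II a / (3 * m ^ 8)) (-JJ a / (27 * m ^ 12)) := by
      unfold dsc
      ring
    rw [h3] at h2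
    apply mul_left_cancel₀ (pow_ne_zero 6 hg)
    rw [h2]
    ring
  · refine ⟨(bq a ![1, s] * (tay a s 0 ^ 2 / (4 * bq a ![1, s]) - tay a s 1) -
      -(bq a ![1, s] * tay a s 1) / 3) / (m ^ 2) ^ 2,
      bq a ![1, s] ^ 2 * (tay a s 0 * (tay a s 0 ^ 2 / (4 * bq a ![1, s]) - tay a s 1) +
        2 * bq a ![1, s] * tay a s 2) / (2 * bq a ![1, s]) / (m ^ 2) ^ 3, fun n => ?_⟩
    have h1 := trn_iff h _ _ _ (bq a ![1, s] * (tay a s 0 ^ 2 / (4 * bq a ![1, s]) - tay a s 1))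
      (bq a ![1, s] ^ 2 * (tay a s 0 * (tay a s 0 ^ 2 / (4 * bq a ![1, s]) - tay a s 1) +
        2 * bq a ![1, s] * tay a s 2) / (2 * bq a ![1, s])) (m ^ 2)
      (-(bq a ![1, s] * tay a s 1) / 3) n hu hdsc2
    rw [e1, e2, e3] at h1
    unfold TorT
    rw [Pool.Agent.Q190.TT.tor_iff a _ s _ n hg]
    unfold Pool.Agent.Q190.TT.TP
    rw [h1]
    exact ⟨fun h => h.2.2.2, fun h => ⟨hg, sq _, hdc, h⟩⟩

end trn

/-- **ORN**: the order of the torsion points in the family, twisted, is smaller than any power of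
the height. -/
theorem orn (h1 : S_TRN) (h2 : S_GLT) (h3 : S_SEN) : S_ORN := by
  intro K _ _ n f hf i M
  classical
  obtain ⟨C, hC, hsel⟩ := h3 K n (pd f i) 24 (fun j => pd_deg f hf i)
    (f.support.image fun m => f.coeff m) M
  refine ⟨C, hC, ?_⟩
  intro z N hN hT
  obtain ⟨a, ha⟩ : ∃ a : Fin 5 → K, a = lc f (af z) i := ⟨_, rfl⟩
  rw [← ha] at hT ⊢
  have hg : bq a ![1, z i] ≠ 0 := hT.1
  have hT' := hT
  unfold TorT at hT'
  rw [Pool.Agent.Q190.TT.tor_iff a _ (z i) _ N hg] at hT'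
  have hdc : dc (a 0) (a 1) (a 2) (a 3) (a 4) ≠ 0 := hT'.2.2.1
  obtain ⟨v, hvn, p, hG, hS, hvP, F, hF, ρ, hcard, hρ⟩ := hsel z (by
    rw [pd_eval, ← ha]
    exact hdc)
  rw [pd_eval, ← ha] at hvP
  have hv := hG.na
  obtain ⟨m, hm0, hm⟩ := Pool.Agent.Q190.TT.Gln.exists_m v z i
  have hmpos : 0 < v m := v.pos hm0
  have e2 : v (2 : K) = 1 := by
    have := hG.unit 2 (by norm_num) (by have := hG.p5; omega)
    exact_mod_cast this
  have e3 : v (3 : K) = 1 := by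
    have := hG.unit 3 (by norm_num) (by have := hG.p5; omega)
    exact_mod_cast this
  have hc : ∀ m, v (f.coeff m) ≤ 1 := by
    intro m
    rcases eq_or_ne (f.coeff m) 0 with h | h
    · rw [h, map_zero]; exact zero_le_one
    · exact (hS (f.coeff m) (Finset.mem_image.2 ⟨m, mem_support_iff.2 h, rfl⟩) h).le
  have hai : ∀ k, v (a k) ≤ v m ^ 4 := by
    intro k
    rw [hm, ha]
    exact Pool.Agent.Q190.TT.Gln.lc_le_na hv f hf hc z i k
  obtain ⟨hdd, x', y', hiff⟩ := key h1 a m (z i) hm0 hg hdc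
  have vb : v (-Pool.Agent.Q224.TT.Loc.II a / (3 * m ^ 8)) ≤ 1 := by
    rw [map_div₀, v.map_neg, map_mul, map_pow, e3, one_mul, div_le_iff₀ (by positivity), one_mul]
    refine (Pool.Agent.Q224.TT.Loc.vII' v hv a _ hai).trans (le_of_eq ?_)
    ring
  have vc : v (-Pool.Agent.Q224.TT.Loc.JJ a / (27 * m ^ 12)) ≤ 1 := by
    have h27 : v 27 = 1 := by
      rw [show (27 : K) = 3 ^ 3 by norm_num, map_pow, e3, one_pow]
    rw [map_div₀, v.map_neg, map_mul, map_pow, h27, one_mul, div_le_iff₀ (by positivity), one_mul]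
    refine (Pool.Agent.Q224.TT.Loc.vJJ' v hv a _ hai).trans (le_of_eq ?_)
    ring
  have vd : v (dsc 0 (-Pool.Agent.Q224.TT.Loc.II a / (3 * m ^ 8))
      (-Pool.Agent.Q224.TT.Loc.JJ a / (27 * m ^ 12))) = 1 := by
    refine le_antisymm ?_ ?_
    · have e : dsc 0 (-Pool.Agent.Q224.TT.Loc.II a / (3 * m ^ 8))
          (-Pool.Agent.Q224.TT.Loc.JJ a / (27 * m ^ 12)) =
          -(((4 : ℕ) : K) * (-Pool.Agent.Q224.TT.Loc.II a / (3 * m ^ 8)) ^ 3) -
            ((27 : ℕ) : K) * (-Pool.Agent.Q224.TT.Loc.JJ a / (27 * m ^ 12)) ^ 2 := by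
        unfold dsc
        push_cast
        ring
      rw [e]
      refine na_sub hv ?_ ?_
      · rw [v.map_neg, map_mul, map_pow]
        exact mul_le_one₀ (na_nat hv _) (by positivity) (pow_le_one₀ (v.nonneg _) vb)
      · rw [map_mul, map_pow]
        exact mul_le_one₀ (na_nat hv _) (by positivity) (pow_le_one₀ (v.nonneg _) vc)
    · rw [hdd, map_div₀, hvP, map_pow, le_div_iff₀ (by positivity), one_mul]
      have hsplit : ∏ j, max 1 (v (z j)) ^ 24 =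
          max 1 (v (z i)) ^ 24 * ∏ j ∈ Finset.univ.erase i, max 1 (v (z j)) ^ 24 :=
        (Finset.mul_prod_erase Finset.univ _ (Finset.mem_univ i)).symm
      have h6 : v m ^ 24 = ∏ j ∈ Finset.univ.erase i, max 1 (v (z j)) ^ 24 := by
        calc v m ^ 24 = (v m ^ 4) ^ 6 := by ring
          _ = ∏ j ∈ Finset.univ.erase i, (max 1 (v (z j)) ^ 4) ^ 6 := by
              rw [hm]
              exact (Finset.prod_pow _ _ _).symm
          _ = _ := Finset.prod_congr rfl fun j _ => by ring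
      rw [hsplit, ← h6]
      have : (1 : ℝ) ≤ max 1 (v (z i)) ^ 24 := one_le_pow₀ (le_max_left _ _)
      nlinarith [pow_pos hmpos 24]
  obtain ⟨N', hN', hTN', hle⟩ := order_bound hv e2 (h2 K v p hG) vb vc vd hg hN ((hiff N).1 hT) ρ hρ
  refine ⟨N', hN', (hiff N').2 hTN', ?_⟩
  refine le_trans ?_ hcard
  exact pow_le_pow_left₀ (Nat.cast_nonneg _) (by exact_mod_cast hle) M

end Pool.Agent.Q53.TT.ORN
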