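import Pool.Agent.Q35.TT.Stm
import Pool.Agent.Y720.MZ.Tors2

/-! # Project TT (helper35), job ARC: archimedean bound for the abscissas of torsion points -/

set_option autoImplicit false

open WeierstrassCurve Pool.Agent.Y720.MZ

namespace Pool.Agent.Q53.TT.ARC

open Pool.Agent.Q35.TT

variable {K : Type} [Field K] {v : AbsoluteValue K ℝ}

lemma vadd {x y : K} {p q : ℝ} (hx : v x ≤ p) (hy : v y ≤ q) : v (x + y) ≤ p + q :=
  (v.add_le x y).trans (add_le_add hx hy)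

lemma vneg {x : K} {p : ℝ} (hx : v x ≤ p) : v (-x) ≤ p := by rwa [v.map_neg]

lemma vsub {x y : K} {p q : ℝ} (hx : v x ≤ p) (hy : v y ≤ q) : v (x - y) ≤ p + q := by
  rw [sub_eq_add_neg]
  exact vadd hx (vneg hy)

lemma vmul {x y : K} {p q : ℝ} (hx : v x ≤ p) (hy : v y ≤ q) : v (x * y) ≤ p * q := by
  rw [map_mul]
  exact mul_le_mul hx hy (v.nonneg _) ((v.nonneg _).trans hx)

lemma vpow {x : K} {p : ℝ} (hx : v x ≤ p) (n : ℕ) : v (x ^ n) ≤ p ^ n := by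
  rw [map_pow]
  exact pow_le_pow_left₀ (v.nonneg _) hx n

/-- the ordinate of a point with a large abscissa -/
lemma big_y {A : ℝ} (hA : 1 ≤ A) {a b c x y : K} (ha : v a ≤ A) (hb : v b ≤ A) (hc : v c ≤ A)
    (hx : 6 * A ≤ v x) (h : y ^ 2 = x ^ 3 + a * x ^ 2 + b * x + c) :
    v x ^ 3 / 2 ≤ v y ^ 2 ∧ v y ^ 2 ≤ 2 * v x ^ 3 := by
  have hT : 6 ≤ v x := by linarith
  have h0 : 0 < v x := by linarith
  have hAT : A ≤ v x / 6 := by linarith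
  have h1 : v (a * x ^ 2 + b * x + c) ≤ v x ^ 3 / 2 := by
    have h2 : v (a * x ^ 2 + b * x + c) ≤ A * v x ^ 2 + A * v x + A :=
      vadd (vadd (vmul ha (vpow le_rfl 2)) (vmul hb le_rfl)) hc
    refine h2.trans ?_
    have h3 : A * v x ^ 2 ≤ v x / 6 * v x ^ 2 := by gcongr
    have h4 : A * v x ≤ v x / 6 * v x := by gcongr
    have h5 : v x ^ 2 * 6 ≤ v x ^ 2 * v x := by gcongr
    have h6 : v x * 6 ≤ v x * v x := by gcongr
    nlinarith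
  have e : y ^ 2 = x ^ 3 + (a * x ^ 2 + b * x + c) := by rw [h]; ring
  have e2 : v y ^ 2 = v (x ^ 3 + (a * x ^ 2 + b * x + c)) := by rw [← map_pow, e]
  have h3 := v.le_add (x ^ 3) (a * x ^ 2 + b * x + c)
  have h4 := v.add_le (x ^ 3) (a * x ^ 2 + b * x + c)
  rw [map_pow] at h3 h4
  rw [e2]
  constructor <;> linarith [pow_pos h0 3]

/-- the parameters of a point with a large abscissa -/
lemma big_ts {A : ℝ} (hA : 1 ≤ A) {a b c x y : K} (ha : v a ≤ A) (hb : v b ≤ A) (hc : v c ≤ A)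
    (hx : 6 * A ≤ v x) (h : y ^ 2 = x ^ 3 + a * x ^ 2 + b * x + c) :
    y ≠ 0 ∧ v (x / y) ^ 2 * v x ≤ 2 ∧ 1 ≤ 2 * (v (x / y) ^ 2 * v x) ∧ 0 < v (x / y) ∧
      v (1 / y) ≤ 2 * v (x / y) ^ 3 := by
  have h0 : 0 < v x := by linarith
  obtain ⟨h1, h2⟩ := big_y hA ha hb hc hx h
  have hx3 : 0 < v x ^ 3 := pow_pos h0 3
  have hy2 : 0 < v y ^ 2 := by linarith
  have hy : y ≠ 0 := by
    intro hy
    rw [hy, map_zero, zero_pow two_ne_zero] at hy2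
    exact lt_irrefl _ hy2
  have hy0 : 0 < v y := v.pos hy
  have hx0 : x ≠ 0 := by
    intro hx0
    rw [hx0, map_zero] at h0
    exact lt_irrefl _ h0
  have e : v (x / y) ^ 2 * v x = v x ^ 3 / v y ^ 2 := by
    rw [map_div₀, div_pow]
    ring
  refine ⟨hy, ?_, ?_, v.pos (div_ne_zero hx0 hy), ?_⟩
  · rw [e, div_le_iff₀ hy2]
    linarith
  · rw [e, ← mul_div_assoc, le_div_iff₀ hy2]
    linarith
  · rw [map_div₀, map_div₀, map_one, div_pow, ← mul_div_assoc, div_le_div_iff₀ hy0 (pow_pos hy0 3)]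
    calc 1 * v y ^ 3 = v y ^ 2 * v y := by ring
      _ ≤ 2 * v x ^ 3 * v y := by gcongr

/-- a point with a large ordinate has a large abscissa -/
lemma big_of_s {A r : ℝ} (hA : 1 ≤ A) (hr0 : 0 < r) (hr : 100 * A * r ≤ 1) {a b c x y : K}
    (ha : v a ≤ A) (hb : v b ≤ A) (hc : v c ≤ A) (hy0 : y ≠ 0) (hy : v (1 / y) ≤ 64 * r ^ 3)
    (h : y ^ 2 = x ^ 3 + a * x ^ 2 + b * x + c) : 6 * A ≤ v x := by
  by_contra hx
  push Not at hx
  have hAr : A * r ≤ 1 / 100 := by linarith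
  have hr1 : r ≤ 1 / 100 := by nlinarith
  have h1 : v y ^ 2 ≤ 259 * A ^ 3 := by
    rw [← map_pow, h]
    have hA2 : A ≤ A ^ 2 := by nlinarith
    have hA3 : A ^ 2 ≤ A ^ 3 := by nlinarith [sq_nonneg A]
    have h2 : v (x ^ 3 + a * x ^ 2 + b * x + c) ≤
        (6 * A) ^ 3 + A * (6 * A) ^ 2 + A * (6 * A) + A :=
      vadd (vadd (vadd (vpow hx.le 3) (vmul ha (vpow hx.le 2))) (vmul hb hx.le)) hc
    refine h2.trans ?_
    nlinarith
  have hy1 : 0 < v y := v.pos hy0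
  have h2 : 1 ≤ 64 * r ^ 3 * v y := by
    rw [map_div₀, map_one, div_le_iff₀ hy1] at hy
    exact hy
  have h3 : (1 : ℝ) ≤ (64 * r ^ 3) ^ 2 * (259 * A ^ 3) := by
    calc (1 : ℝ) = 1 ^ 2 := by norm_num
      _ ≤ (64 * r ^ 3 * v y) ^ 2 := by gcongr
      _ = (64 * r ^ 3) ^ 2 * v y ^ 2 := by ring
      _ ≤ (64 * r ^ 3) ^ 2 * (259 * A ^ 3) := by gcongr
  have h4 : (64 * r ^ 3) ^ 2 * (259 * A ^ 3) = 64 ^ 2 * 259 * (A * r) ^ 3 * r ^ 3 := by ring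
  have h5 : 64 ^ 2 * 259 * (A * r) ^ 3 * r ^ 3 ≤ 64 ^ 2 * 259 * (1 / 100) ^ 3 * (1 / 100) ^ 3 := by
    gcongr
  have h6 : (64 : ℝ) ^ 2 * 259 * (1 / 100) ^ 3 * (1 / 100) ^ 3 < 1 := by norm_num
  linarith

/-- the third point of a line through two points close to the origin -/
lemma third_arc {A r : ℝ} (hA : 1 ≤ A) (hr0 : 0 < r) (hr : 100 * A * r ≤ 1)
    {a b c x₁ x₂ x₃ ℓ ν : K} (ha : v a ≤ A) (hb : v b ≤ A) (hc : v c ≤ A)
    (h2v : v (2 : K) = 2) (h3v : v (3 : K) = 3)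
    (E1 : x₁ + x₂ + x₃ = ℓ ^ 2 - a)
    (E2 : x₁ * x₂ + x₁ * x₃ + x₂ * x₃ = b - 2 * ℓ * ν) (E3 : x₁ * x₂ * x₃ = ν ^ 2 - c)
    (hν : ν ≠ 0) (hlam : v (-ℓ / ν) ≤ 16 * r ^ 2)
    (hmu : v (1 / ν) ≤ 16 * r ^ 3) (h1 : ℓ * x₁ + ν ≠ 0) (h2 : ℓ * x₂ + ν ≠ 0)
    (ht1 : v (x₁ / (ℓ * x₁ + ν)) ≤ r) (ht2 : v (x₂ / (ℓ * x₂ + ν)) ≤ r) :
    ℓ * x₃ + ν ≠ 0 ∧ v (1 / (ℓ * x₃ + ν)) ≤ 64 * r ^ 3 ∧
      v (x₃ / (ℓ * x₃ + ν) + x₁ / (ℓ * x₁ + ν) + x₂ / (ℓ * x₂ + ν)) ≤ 34 * A * r ^ 3 := by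
  have hAr : A * r ≤ 1 / 100 := by linarith
  have hr1 : r ≤ 1 / 100 := by nlinarith
  set l := -ℓ / ν with hl
  set m := 1 / ν with hm
  have hl0 := v.nonneg l
  have hm0 := v.nonneg m
  set q : ℝ := 16 * r ^ 2 with hq
  have hq0 : 0 ≤ q := by positivity
  have hq1 : q ≤ 1 / 600 := by
    rw [hq]
    nlinarith
  have hAq : A * q ≤ 1 / 600 := by
    rw [hq]
    have : A * (16 * r ^ 2) = 16 * (A * r) * r := by ring
    rw [this]
    have h5 : 16 * (A * r) * r ≤ 16 * (1 / 100) * (1 / 100) := by gcongr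
    linarith
  have hD : v (a * l + b * l ^ 2 + c * l ^ 3) ≤ 1 / 2 := by
    have h5 : v (a * l + b * l ^ 2 + c * l ^ 3) ≤ A * q + A * q ^ 2 + A * q ^ 3 :=
      vadd (vadd (vmul ha hlam) (vmul hb (vpow hlam 2))) (vmul hc (vpow hlam 3))
    refine h5.trans ?_
    have h6 : A * q ^ 2 = A * q * q := by ring
    have h7 : A * q ^ 3 = A * q * q * q := by ring
    have h8 : A * q * q ≤ 1 / 600 * (1 / 600) := by gcongr
    have h9 : A * q * q * q ≤ 1 / 600 * (1 / 600) * (1 / 600) := by gcongr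
    rw [h6, h7]
    linarith
  have hDv : 1 / 2 ≤ v (1 + a * l + b * l ^ 2 + c * l ^ 3) := by
    have h5 := v.le_add 1 (a * l + b * l ^ 2 + c * l ^ 3)
    rw [map_one] at h5
    have e : 1 + a * l + b * l ^ 2 + c * l ^ 3 = 1 + (a * l + b * l ^ 2 + c * l ^ 3) := by ring
    rw [e]
    linarith
  have hD0 : 1 + a * l + b * l ^ 2 + c * l ^ 3 ≠ 0 := by
    intro h0
    rw [h0, map_zero] at hDv
    linarith
  obtain ⟨h3, h4⟩ := line_sum E1 E2 E3 hν h1 h2 hD0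
  have hN : v (a * m + 2 * b * l * m + 3 * c * l ^ 2 * m) ≤ 17 * A * r ^ 3 := by
    have h5 : v (a * m + 2 * b * l * m + 3 * c * l ^ 2 * m) ≤
        A * (16 * r ^ 3) + 2 * A * q * (16 * r ^ 3) + 3 * A * q ^ 2 * (16 * r ^ 3) :=
      vadd (vadd (vmul ha hmu) (vmul (vmul (vmul h2v.le hb) hlam) hmu))
        (vmul (vmul (vmul h3v.le hc) (vpow hlam 2)) hmu)
    refine h5.trans ?_
    have h6 : A * (16 * r ^ 3) + 2 * A * q * (16 * r ^ 3) + 3 * A * q ^ 2 * (16 * r ^ 3) =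
        16 * (1 + 2 * q + 3 * q ^ 2) * (A * r ^ 3) := by ring
    have h7 : 16 * (1 + 2 * q + 3 * q ^ 2) ≤ 17 := by nlinarith
    rw [h6]
    calc 16 * (1 + 2 * q + 3 * q ^ 2) * (A * r ^ 3) ≤ 17 * (A * r ^ 3) := by gcongr
      _ = 17 * A * r ^ 3 := by ring
  have hE : v ((a * m + 2 * b * l * m + 3 * c * l ^ 2 * m) /
      (1 + a * l + b * l ^ 2 + c * l ^ 3)) ≤ 34 * A * r ^ 3 := by
    rw [map_div₀, div_le_iff₀ (by linarith)]
    refine hN.trans ?_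
    have h5 : 34 * A * r ^ 3 * (1 / 2) ≤ 34 * A * r ^ 3 * v (1 + a * l + b * l ^ 2 + c * l ^ 3) := by
      gcongr
    linarith
  have h5 : x₃ / (ℓ * x₃ + ν) + x₁ / (ℓ * x₁ + ν) + x₂ / (ℓ * x₂ + ν) =
      -((a * m + 2 * b * l * m + 3 * c * l ^ 2 * m) / (1 + a * l + b * l ^ 2 + c * l ^ 3)) := by
    rw [h4]; ring
  have h6 : v (x₃ / (ℓ * x₃ + ν) + x₁ / (ℓ * x₁ + ν) + x₂ / (ℓ * x₂ + ν)) ≤ 34 * A * r ^ 3 := by
    rw [h5, v.map_neg]
    exact hE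
  refine ⟨h3, ?_, h6⟩
  have h7 : v (x₃ / (ℓ * x₃ + ν)) ≤ 3 * r := by
    have e : x₃ / (ℓ * x₃ + ν) = (x₃ / (ℓ * x₃ + ν) + x₁ / (ℓ * x₁ + ν) + x₂ / (ℓ * x₂ + ν)) -
        x₁ / (ℓ * x₁ + ν) - x₂ / (ℓ * x₂ + ν) := by ring
    rw [e]
    refine (vsub (vsub h6 ht1) ht2).trans ?_
    have h8 : 34 * A * r ^ 3 ≤ r := by
      have : 34 * A * r ^ 3 = 34 * (A * r) * r * r := by ring
      rw [this]
      have h9 : 34 * (A * r) * r ≤ 34 * (1 / 100) * (1 / 100) := by gcongr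
      nlinarith
    linarith
  have h8 : 1 / (ℓ * x₃ + ν) = l * (x₃ / (ℓ * x₃ + ν)) + m := by
    rw [hl, hm]
    field_simp
    ring
  rw [h8]
  refine (vadd (vmul hlam h7) hmu).trans ?_
  rw [hq]
  nlinarith [pow_pos hr0 3]

lemma chord_arc {A r : ℝ} (hA : 1 ≤ A) (hr0 : 0 < r) (hr : 100 * A * r ≤ 1)
    {a b c x₁ x₂ y₁ y₂ ℓ ν : K} (ha : v a ≤ A)
    (hb : v b ≤ A) (hc : v c ≤ A)
    (hx1 : 6 * A ≤ v x₁) (hx2 : 6 * A ≤ v x₂) (hx : x₁ ≠ x₂)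
    (h1 : y₁ ^ 2 = x₁ ^ 3 + a * x₁ ^ 2 + b * x₁ + c)
    (h2 : y₂ ^ 2 = x₂ ^ 3 + a * x₂ ^ 2 + b * x₂ + c) (hy1 : y₁ = ℓ * x₁ + ν)
    (hy2 : y₂ = ℓ * x₂ + ν) (ht1 : v (x₁ / y₁) ≤ r) (ht2 : v (x₂ / y₂) ≤ r)
    (ht : x₁ / y₁ ≠ x₂ / y₂) :
    ν ≠ 0 ∧ v (-ℓ / ν) ≤ 16 * r ^ 2 ∧ v (1 / ν) ≤ 16 * r ^ 3 := by
  obtain ⟨hy1', -, -, h13, h14⟩ := big_ts hA ha hb hc hx1 h1
  obtain ⟨hy2', -, -, h23, h24⟩ := big_ts hA ha hb hc hx2 h2
  have hAr : A * r ≤ 1 / 100 := by linarith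
  have hr1 : r ≤ 1 / 100 := by nlinarith
  have q1 := ts_eqn hy1' h1
  have q2 := ts_eqn hy2' h2
  have e1 : x₁ / y₁ * y₁ = x₁ := div_mul_cancel₀ _ hy1'
  have e1' : (1 / y₁) * y₁ = 1 := one_div_mul_cancel hy1'
  have e2' : (1 / y₂) * y₂ = 1 := one_div_mul_cancel hy2'
  have e2 : x₂ / y₂ * y₂ = x₂ := div_mul_cancel₀ _ hy2'
  set t₁ := x₁ / y₁
  set t₂ := x₂ / y₂
  set s₁ := 1 / y₁
  set s₂ := 1 / y₂
  have hs1 : v s₁ ≤ 2 * r ^ 3 := by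
    refine h14.trans ?_
    gcongr
  have hs2 : v s₂ ≤ 2 * r ^ 3 := by
    refine h24.trans ?_
    gcongr
  have ht12 : t₁ - t₂ ≠ 0 := sub_ne_zero.2 ht
  have hid : (s₁ - s₂) * (1 + (-(a * t₂ ^ 2) - b * t₂ * (s₁ + s₂) -
      c * (s₁ ^ 2 + s₁ * s₂ + s₂ ^ 2))) =
      (t₁ - t₂) * (t₁ ^ 2 + t₁ * t₂ + t₂ ^ 2 + a * (t₁ + t₂) * s₁ + b * s₁ ^ 2) := by
    linear_combination q1 - q2
  -- powers of r
  have hA2 : A * r ^ 2 ≤ 1 / 100 * (1 / 100) := by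
    have : A * r ^ 2 = A * r * r := by ring
    rw [this]
    gcongr
  have hr2 : r ^ 2 ≤ (1 / 100) ^ 2 := by gcongr
  have hr4 : r ^ 4 ≤ (1 / 100) ^ 4 := by gcongr
  have hU : 1 / 2 ≤ v (1 + (-(a * t₂ ^ 2) - b * t₂ * (s₁ + s₂) -
      c * (s₁ ^ 2 + s₁ * s₂ + s₂ ^ 2))) := by
    have h5 : v (-(a * t₂ ^ 2) - b * t₂ * (s₁ + s₂) - c * (s₁ ^ 2 + s₁ * s₂ + s₂ ^ 2)) ≤
        A * r ^ 2 + A * r * (2 * r ^ 3 + 2 * r ^ 3) +
          A * ((2 * r ^ 3) ^ 2 + 2 * r ^ 3 * (2 * r ^ 3) + (2 * r ^ 3) ^ 2) :=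
      vsub (vsub (vneg (vmul ha (vpow ht2 2))) (vmul (vmul hb ht2) (vadd hs1 hs2)))
        (vmul hc (vadd (vadd (vpow hs1 2) (vmul hs1 hs2)) (vpow hs2 2)))
    have h6 : A * r ^ 2 + A * r * (2 * r ^ 3 + 2 * r ^ 3) +
          A * ((2 * r ^ 3) ^ 2 + 2 * r ^ 3 * (2 * r ^ 3) + (2 * r ^ 3) ^ 2) =
        A * r ^ 2 * (1 + 4 * r ^ 2 + 12 * r ^ 4) := by ring
    have h7 : A * r ^ 2 * (1 + 4 * r ^ 2 + 12 * r ^ 4) ≤
        1 / 100 * (1 / 100) * (1 + 4 * (1 / 100) ^ 2 + 12 * (1 / 100) ^ 4) := by gcongr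
    have h8 : (1 : ℝ) / 100 * (1 / 100) * (1 + 4 * (1 / 100) ^ 2 + 12 * (1 / 100) ^ 4) ≤ 1 / 2 := by
      norm_num
    have h9 := v.le_add 1 (-(a * t₂ ^ 2) - b * t₂ * (s₁ + s₂) -
      c * (s₁ ^ 2 + s₁ * s₂ + s₂ ^ 2))
    rw [map_one] at h9
    linarith
  have hV : v (t₁ ^ 2 + t₁ * t₂ + t₂ ^ 2 + a * (t₁ + t₂) * s₁ + b * s₁ ^ 2) ≤ 4 * r ^ 2 := by
    have h5 : v (t₁ ^ 2 + t₁ * t₂ + t₂ ^ 2 + a * (t₁ + t₂) * s₁ + b * s₁ ^ 2) ≤
        r ^ 2 + r * r + r ^ 2 + A * (r + r) * (2 * r ^ 3) + A * (2 * r ^ 3) ^ 2 :=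
      vadd (vadd (vadd (vadd (vpow ht1 2) (vmul ht1 ht2)) (vpow ht2 2))
        (vmul (vmul ha (vadd ht1 ht2)) hs1)) (vmul hb (vpow hs1 2))
    refine h5.trans ?_
    have h6 : r ^ 2 + r * r + r ^ 2 + A * (r + r) * (2 * r ^ 3) + A * (2 * r ^ 3) ^ 2 =
        (3 + A * r ^ 2 * (4 + 4 * r ^ 2)) * r ^ 2 := by ring
    have h7 : A * r ^ 2 * (4 + 4 * r ^ 2) ≤ 1 / 100 * (1 / 100) * (4 + 4 * (1 / 100) ^ 2) := by
      gcongr
    rw [h6]
    have h8 : 3 + A * r ^ 2 * (4 + 4 * r ^ 2) ≤ 4 := by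
      refine (add_le_add_right h7 3).trans ?_
      norm_num
    gcongr
  set l := (s₁ - s₂) / (t₁ - t₂) with hl
  have hl' : l * (t₁ - t₂) = s₁ - s₂ := div_mul_cancel₀ _ ht12
  have hlv : v l ≤ 8 * r ^ 2 := by
    have h := congrArg v hid
    rw [← hl'] at h
    rw [map_mul, map_mul, map_mul] at h
    have h5 : v (t₁ - t₂) ≠ 0 := v.ne_zero ht12
    have h6 : v l * v (1 + (-(a * t₂ ^ 2) - b * t₂ * (s₁ + s₂) -
      c * (s₁ ^ 2 + s₁ * s₂ + s₂ ^ 2))) =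
        v (t₁ ^ 2 + t₁ * t₂ + t₂ ^ 2 + a * (t₁ + t₂) * s₁ + b * s₁ ^ 2) := by
      apply mul_left_cancel₀ h5
      linear_combination h
    have h7 : v l * (1 / 2) ≤ 4 * r ^ 2 := by
      refine le_trans ?_ hV
      rw [← h6]
      exact mul_le_mul_of_nonneg_left hU (v.nonneg l)
    linarith
  have hmv : v (s₁ - l * t₁) ≤ 10 * r ^ 3 := by
    refine (vsub hs1 (vmul hlv ht1)).trans (le_of_eq ?_)
    ring
  set m := s₁ - l * t₁ with hm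
  have k1 : l * x₁ + m * y₁ = 1 := by
    rw [hm]; linear_combination e1' - l * e1
  have k2 : l * x₂ + m * y₂ = 1 := by
    have : m = s₂ - l * t₂ := by rw [hm]; linear_combination -hl'
    rw [this]; linear_combination e2' - l * e2
  have hx' : x₁ - x₂ ≠ 0 := sub_ne_zero.2 hx
  have hm0 : m ≠ 0 := by
    intro h0
    rw [h0, zero_mul, add_zero] at k1 k2
    have : l * (x₁ - x₂) = 0 := by linear_combination k1 - k2
    rcases mul_eq_zero.1 this with h | h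
    · rw [h, zero_mul] at k1; exact zero_ne_one k1
    · exact hx' h
  have hℓ : m * ℓ = -l := by
    apply mul_right_cancel₀ hx'
    rw [hy1] at k1
    rw [hy2] at k2
    linear_combination k1 - k2
  have hν : m * ν = 1 := by
    rw [hy1] at k1
    linear_combination k1 - x₁ * hℓ
  have hν0 : ν ≠ 0 := right_ne_zero_of_mul (a := m) (by rw [hν]; exact one_ne_zero)
  refine ⟨hν0, ?_, ?_⟩
  · have : -ℓ / ν = l := by
      rw [div_eq_iff hν0]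
      apply mul_left_cancel₀ hm0
      linear_combination -hℓ - l * hν
    rw [this]
    nlinarith [pow_pos hr0 2]
  · have : 1 / ν = m := by
      rw [div_eq_iff hν0, hν]
    rw [this]
    nlinarith [pow_pos hr0 3]

lemma tangent_arc {A r : ℝ} (hA : 1 ≤ A) {a b c x y ℓ ν : K} (ha : v a ≤ A)
    (hb : v b ≤ A) (hc : v c ≤ A) (h2v : v (2 : K) = 2) (h3v : v (3 : K) = 3)
    (hx1 : 6 * A ≤ v x) (h1 : y ^ 2 = x ^ 3 + a * x ^ 2 + b * x + c) (hy1 : y = ℓ * x + ν)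
    (hℓ : ℓ * (2 * y) = 3 * x ^ 2 + 2 * a * x + b) (ht1 : v (x / y) ≤ r) :
    ν ≠ 0 ∧ v (-ℓ / ν) ≤ 16 * r ^ 2 ∧ v (1 / ν) ≤ 16 * r ^ 3 := by
  obtain ⟨hy1', h11, h12, h13, h14⟩ := big_ts hA ha hb hc hx1 h1
  obtain ⟨hvy1, hvy2⟩ := big_y hA ha hb hc hx1 h1
  have hT : 6 ≤ v x := by linarith
  have hx0 : 0 < v x := by linarith
  have hAT : A ≤ v x / 6 := by linarith
  have hy0 : 0 < v y := v.pos hy1'
  have hx3 : 0 < v x ^ 3 := pow_pos hx0 3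
  have h5 : v x ^ 2 * 6 ≤ v x ^ 2 * v x := by gcongr
  have h6 : v x * 6 ≤ v x * v x := by gcongr
  have h4 : A * v x ≤ v x / 6 * v x := by gcongr
  have hN : ν * (2 * y) = -x ^ 3 + (b * x + 2 * c) := by
    have : ν = y - ℓ * x := by rw [hy1]; ring
    rw [this]
    linear_combination 2 * h1 - x * hℓ
  have hNv : v x ^ 3 / 2 ≤ v ν * (2 * v y) := by
    have h := congrArg v hN
    rw [map_mul, map_mul, h2v] at h
    rw [h]
    have h7 := v.le_add (-x ^ 3) (b * x + 2 * c)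
    rw [v.map_neg, map_pow] at h7
    have h8 : v (b * x + 2 * c) ≤ A * v x + 2 * A :=
      vadd (vmul hb le_rfl) (vmul h2v.le hc)
    have h9 : A * v x + 2 * A ≤ v x ^ 3 / 2 := by nlinarith
    linarith
  have hν0 : ν ≠ 0 := by
    intro h0
    rw [h0, map_zero, zero_mul] at hNv
    linarith
  have hνv : 0 < v ν := v.pos hν0
  have hT3 : v x ^ 3 ≤ 4 * (v ν * v y) := by linarith
  refine ⟨hν0, ?_, ?_⟩
  · have h7 : v ℓ * (2 * v y) ≤ 4 * v x ^ 2 := by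
      have h := congrArg v hℓ
      rw [map_mul, map_mul, h2v] at h
      rw [h]
      have h8 : v (3 * x ^ 2 + 2 * a * x + b) ≤ 3 * v x ^ 2 + 2 * A * v x + A :=
        vadd (vadd (vmul h3v.le (vpow le_rfl 2)) (vmul (vmul h2v.le ha) le_rfl)) hb
      refine h8.trans ?_
      nlinarith
    -- `v ℓ / v ν ≤ 8 / v x`
    have h8 : v ℓ * v x ≤ 8 * v ν := by
      have h9 : (v ℓ * v x) * (v y * v x ^ 2) ≤ 8 * v ν * (v y * v x ^ 2) := by
        calc (v ℓ * v x) * (v y * v x ^ 2) = v ℓ * (2 * v y) * v x ^ 3 / 2 := by ring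
          _ ≤ 4 * v x ^ 2 * v x ^ 3 / 2 := by gcongr
          _ = 2 * v x ^ 2 * v x ^ 3 := by ring
          _ ≤ 2 * v x ^ 2 * (4 * (v ν * v y)) := by gcongr
          _ = 8 * v ν * (v y * v x ^ 2) := by ring
      exact le_of_mul_le_mul_right h9 (by positivity)
    rw [map_div₀, v.map_neg, div_le_iff₀ hνv]
    have h9 : v ℓ * v x ≤ 16 * r ^ 2 * v ν * v x := by
      refine h8.trans ?_
      have h10 : v (x / y) ^ 2 ≤ r ^ 2 := by gcongr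
      have h11' : 1 ≤ 2 * (r ^ 2 * v x) := h12.trans (by gcongr)
      calc 8 * v ν = 8 * v ν * 1 := (mul_one _).symm
        _ ≤ 8 * v ν * (2 * (r ^ 2 * v x)) := by gcongr
        _ = 16 * r ^ 2 * v ν * v x := by ring
    exact le_of_mul_le_mul_right h9 hx0
  · have h7 : v (1 / ν) ≤ 8 * v (1 / y) := by
      rw [map_div₀, map_div₀, map_one, ← mul_div_assoc, mul_one, div_le_div_iff₀ hνv hy0, one_mul]
      have h8 : v y * v y ≤ 8 * v ν * v y := by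
        calc v y * v y = v y ^ 2 := by ring
          _ ≤ 2 * v x ^ 3 := hvy2
          _ ≤ 2 * (4 * (v ν * v y)) := by gcongr
          _ = 8 * v ν * v y := by ring
      exact le_of_mul_le_mul_right h8 hy0
    refine h7.trans ?_
    calc 8 * v (1 / y) ≤ 8 * (2 * v (x / y) ^ 3) := by gcongr
      _ = 16 * v (x / y) ^ 3 := by ring
      _ ≤ 16 * r ^ 3 := by gcongr

section mult

variable [DecidableEq K]

/-- the multiples of a point close to the origin -/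
theorem mult_arc {A : ℝ} (hA : 1 ≤ A) (hnat : ∀ n : ℕ, v (n : K) = n) {a b c : K} (ha : v a ≤ A)
    (hb : v b ≤ A) (hc : v c ≤ A) {N : ℕ} (hN : N ≠ 0) {x y : K}
    (h : (cv a b c).toAffine.Nonsingular x y) (hx : 10 ^ 5 * A ^ 2 * (N : ℝ) ^ 4 < v x) :
    ∀ n : ℕ, 1 ≤ n → n ≤ N → ∃ x' y' h', n • (.some x y h : Pt a b c) = .some x' y' h' ∧
      6 * A ≤ v x' ∧ v (x' / y' - n * (x / y)) ≤ 68 * A * (n : ℝ) ^ 4 * v (x / y) ^ 3 := by
  have heq := (cv_ns.1 h).1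
  have h2v : v (2 : K) = 2 := by exact_mod_cast hnat 2
  have h3v : v (3 : K) = 3 := by exact_mod_cast hnat 3
  have h20 : (2 : K) ≠ 0 := by
    intro h0
    rw [h0, map_zero] at h2v
    norm_num at h2v
  have hNr : (1 : ℝ) ≤ N := by exact_mod_cast Nat.one_le_iff_ne_zero.2 hN
  have hN4 : (1 : ℝ) ≤ (N : ℝ) ^ 4 := one_le_pow₀ hNr
  have hN2 : (1 : ℝ) ≤ (N : ℝ) ^ 2 := one_le_pow₀ hNr
  have hA2 : A ≤ A ^ 2 := le_self_pow₀ hA two_ne_zero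
  have hx6 : 6 * A ≤ v x := by
    refine le_trans ?_ hx.le
    calc 6 * A ≤ 10 ^ 5 * A := by nlinarith
      _ ≤ 10 ^ 5 * A ^ 2 := by gcongr
      _ = 10 ^ 5 * A ^ 2 * 1 := (mul_one _).symm
      _ ≤ 10 ^ 5 * A ^ 2 * (N : ℝ) ^ 4 := by gcongr
  obtain ⟨hy, h1, -, h3, h4⟩ := big_ts hA ha hb hc hx6 heq
  set τ := v (x / y) with hτdef
  have hτ : τ ^ 2 * (10 ^ 5 * A ^ 2 * (N : ℝ) ^ 4) ≤ 2 := by
    refine le_trans ?_ h1
    gcongr
  have f1 : 200 * A * N * τ ≤ 1 := by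
    have h5 : (200 * A * N * τ) ^ 2 ≤ 1 := by
      have h6 : (200 * A * N * τ) ^ 2 = 40000 * (τ ^ 2 * (A ^ 2 * (N : ℝ) ^ 2)) := by ring
      have h7 : τ ^ 2 * (A ^ 2 * (N : ℝ) ^ 2) ≤ τ ^ 2 * (A ^ 2 * (N : ℝ) ^ 4) := by
        have : (N : ℝ) ^ 2 ≤ (N : ℝ) ^ 4 := pow_le_pow_right₀ hNr (by norm_num)
        gcongr
      rw [h6]
      linarith
    have h8 : 0 ≤ 200 * A * N * τ := by positivity
    exact (pow_le_one_iff_of_nonneg h8 two_ne_zero).1 h5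
  have f2 : 68 * A * (N : ℝ) ^ 4 * τ ^ 2 ≤ 1 / 4 := by
    have h6 : 68 * A * (N : ℝ) ^ 4 * τ ^ 2 ≤ 68 * A ^ 2 * (N : ℝ) ^ 4 * τ ^ 2 := by gcongr
    have h7 : 68 * A ^ 2 * (N : ℝ) ^ 4 * τ ^ 2 =
        68 / 10 ^ 5 * (τ ^ 2 * (10 ^ 5 * A ^ 2 * (N : ℝ) ^ 4)) := by ring
    rw [h7] at h6
    linarith
  have g : ∀ n : ℕ, n ≤ N → 68 * A * (n : ℝ) ^ 4 * τ ^ 3 ≤ τ / 4 := by
    intro n hn
    have hnr : (n : ℝ) ≤ N := by exact_mod_cast hn
    calc 68 * A * (n : ℝ) ^ 4 * τ ^ 3 ≤ 68 * A * (N : ℝ) ^ 4 * τ ^ 3 := by gcongr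
      _ = (68 * A * (N : ℝ) ^ 4 * τ ^ 2) * τ := by ring
      _ ≤ 1 / 4 * τ := by gcongr
      _ = τ / 4 := by ring
  intro n hn
  induction n, hn using Nat.le_induction with
  | base =>
    intro _
    refine ⟨x, y, h, one_smul _ _, hx6, ?_⟩
    rw [Nat.cast_one, one_mul, sub_self, map_zero]
    positivity
  | succ n hn ih =>
    intro hnp
    obtain ⟨x', y', h', he, hx', ht'⟩ := ih (by omega)
    have heq' := (cv_ns.1 h').1
    obtain ⟨hy', -, -, h3', h4'⟩ := big_ts hA ha hb hc hx' heq'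
    have hn1r : (1 : ℝ) ≤ n := by exact_mod_cast hn
    have hnr : (n : ℝ) ≤ N := by exact_mod_cast (show n ≤ N by omega)
    have ht4 : v (x' / y' - n * (x / y)) ≤ τ / 4 := ht'.trans (g n (by omega))
    set r : ℝ := 2 * n * τ with hrdef
    have hr0 : 0 < r := by positivity
    have hr : 100 * A * r ≤ 1 := by
      calc 100 * A * r = 200 * A * n * τ := by rw [hrdef]; ring
        _ ≤ 200 * A * N * τ := by gcongr
        _ ≤ 1 := f1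
    have ht1 : v (x' / y') ≤ r := by
      have e : x' / y' = (x' / y' - n * (x / y)) + n * (x / y) := by ring
      rw [e]
      refine (vadd ht4 (vmul (hnat n).le le_rfl)).trans ?_
      rw [← hτdef, hrdef]
      nlinarith
    have ht2 : v (x / y) ≤ r := by
      rw [← hτdef, hrdef]
      nlinarith
    have hfin : 34 * A * r ^ 3 + 68 * A * (n : ℝ) ^ 4 * τ ^ 3 ≤
        68 * A * ((n + 1 : ℕ) : ℝ) ^ 4 * τ ^ 3 := by
      have h5 : (n : ℝ) ^ 4 + 4 * (n : ℝ) ^ 3 ≤ ((n + 1 : ℕ) : ℝ) ^ 4 := by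
        push_cast
        have : ((n : ℝ) + 1) ^ 4 = (n : ℝ) ^ 4 + 4 * (n : ℝ) ^ 3 + 6 * (n : ℝ) ^ 2 + 4 * n + 1 := by ring
        rw [this]
        nlinarith
      calc 34 * A * r ^ 3 + 68 * A * (n : ℝ) ^ 4 * τ ^ 3 =
          68 * A * ((n : ℝ) ^ 4 + 4 * (n : ℝ) ^ 3) * τ ^ 3 := by rw [hrdef]; ring
        _ ≤ 68 * A * ((n + 1 : ℕ) : ℝ) ^ 4 * τ ^ 3 := by gcongr
    rcases hn.lt_or_eq with hn2 | hn1
    · -- the chord
      have hxx : x' ≠ x := by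
        intro hxx
        subst hxx
        rcases eq_or_neg h' h with h5 | h5
        · rw [Affine.Point.some.injEq] at h5
          have h6 : x' / y' - n * (x' / y) = -((n - 1 : ℕ) * (x' / y)) := by
            rw [h5.2, Nat.cast_sub hn]; push_cast; ring
          rw [h6, v.map_neg, map_mul, hnat, ← hτdef] at ht4
          have h7 : (1 : ℝ) ≤ (n - 1 : ℕ) := by exact_mod_cast (show 1 ≤ n - 1 by omega)
          nlinarith
        · obtain ⟨h7, h8⟩ := neg_mk h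
          rw [h8, Affine.Point.some.injEq] at h5
          have h6 : x' / y' - n * (x' / y) = -((n + 1 : ℕ) * (x' / y)) := by
            rw [h5.2, div_neg]; push_cast; ring
          rw [h6, v.map_neg, map_mul, hnat, ← hτdef] at ht4
          push_cast at ht4
          nlinarith
      have htt : x' / y' ≠ x / y := by
        intro htt
        have h6 : x' / y' - n * (x / y) = -((n - 1 : ℕ) * (x / y)) := by
          rw [htt, Nat.cast_sub hn]; push_cast; ring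
        rw [h6, v.map_neg, map_mul, hnat, ← hτdef] at ht4
        have h7 : (1 : ℝ) ≤ (n - 1 : ℕ) := by exact_mod_cast (show 1 ≤ n - 1 by omega)
        nlinarith
      have hxx' : x' - x ≠ 0 := sub_ne_zero.2 hxx
      set ℓ := (y' - y) / (x' - x) with hℓ
      have hℓ' : ℓ * (x' - x) = y' - y := div_mul_cancel₀ _ hxx'
      set ν := y' - ℓ * x' with hν
      have hy1 : y' = ℓ * x' + ν := by rw [hν]; ring
      have hy2 : y = ℓ * x + ν := by rw [hν]; linear_combination hℓ'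
      obtain ⟨hν0, b1, b2⟩ := chord_arc hA hr0 hr ha hb hc hx' hx6 hxx heq' heq hy1 hy2 ht1
        ht2 htt
      obtain ⟨v1, v2⟩ := vieta_chord hxx heq' heq hy1 hy2
      obtain ⟨w1, w2, w3⟩ := third_arc hA hr0 hr ha hb hc h2v h3v (x₁ := x') (x₂ := x)
        (x₃ := ℓ ^ 2 - a - x' - x) (ℓ := ℓ) (ν := ν) (by ring) v1 v2 hν0 b1 b2
        (by rw [← hy1]; exact hy') (by rw [← hy2]; exact hy) (by rw [← hy1]; exact ht1)
        (by rw [← hy2]; exact ht2)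
      obtain ⟨hns, hadd⟩ := add_mk h' h hxx hℓ'
      have e3 : -(ℓ * (ℓ ^ 2 - a - x' - x - x') + y') = -(ℓ * (ℓ ^ 2 - a - x' - x) + ν) := by
        rw [hν]; ring
      refine ⟨_, _, hns, by rw [add_smul, one_smul, he, hadd], ?_, ?_⟩
      · refine big_of_s hA hr0 hr ha hb hc ?_ ?_ (cv_ns.1 hns).1
        · rw [e3]
          exact neg_ne_zero.2 w1
        · rw [e3, div_neg, v.map_neg]
          exact w2
      · rw [e3, div_neg]
        rw [← hy1, ← hy2] at w3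
        have e4 : -((ℓ ^ 2 - a - x' - x) / (ℓ * (ℓ ^ 2 - a - x' - x) + ν)) - ↑(n + 1) * (x / y) =
            -((ℓ ^ 2 - a - x' - x) / (ℓ * (ℓ ^ 2 - a - x' - x) + ν) + x' / y' + x / y) +
              (x' / y' - n * (x / y)) := by push_cast; ring
        rw [e4]
        exact (vadd (vneg w3) ht').trans hfin
    · -- the tangent
      subst hn1
      have hy2 : 2 * y ≠ 0 := mul_ne_zero h20 hy
      set ℓ := (3 * x ^ 2 + 2 * a * x + b) / (2 * y) with hℓ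
      have hℓ' : ℓ * (2 * y) = 3 * x ^ 2 + 2 * a * x + b := div_mul_cancel₀ _ hy2
      set ν := y - ℓ * x with hν
      have hy1 : y = ℓ * x + ν := by rw [hν]; ring
      obtain ⟨hν0, b1, b2⟩ := tangent_arc hA ha hb hc h2v h3v hx6 heq hy1 hℓ' ht2
      obtain ⟨v1, v2⟩ := vieta_tangent heq hy1 hℓ'
      obtain ⟨w1, w2, w3⟩ := third_arc hA hr0 hr ha hb hc h2v h3v (x₁ := x) (x₂ := x)
        (x₃ := ℓ ^ 2 - a - x - x) (ℓ := ℓ) (ν := ν) (by ring) v1 v2 hν0 b1 b2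
        (by rw [← hy1]; exact hy) (by rw [← hy1]; exact hy) (by rw [← hy1]; exact ht2)
        (by rw [← hy1]; exact ht2)
      obtain ⟨hns, hadd⟩ := dbl_mk h hy2 hℓ'
      have e3 : -(ℓ * (ℓ ^ 2 - a - x - x - x) + y) = -(ℓ * (ℓ ^ 2 - a - x - x) + ν) := by
        rw [hν]; ring
      refine ⟨_, _, hns, by rw [add_smul, one_smul, hadd], ?_, ?_⟩
      · refine big_of_s hA hr0 hr ha hb hc ?_ ?_ (cv_ns.1 hns).1
        · rw [e3]
          exact neg_ne_zero.2 w1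
        · rw [e3, div_neg, v.map_neg]
          exact w2
      · rw [e3, div_neg]
        rw [← hy1] at w3
        have e4 : -((ℓ ^ 2 - a - x - x) / (ℓ * (ℓ ^ 2 - a - x - x) + ν)) - ((1 + 1 : ℕ) : K) * (x / y) =
            -((ℓ ^ 2 - a - x - x) / (ℓ * (ℓ ^ 2 - a - x - x) + ν) + x / y + x / y) := by
          push_cast; ring
        rw [e4, v.map_neg]
        refine w3.trans (le_trans ?_ hfin)
        have : 0 ≤ 68 * A * ((1 : ℕ) : ℝ) ^ 4 * τ ^ 3 := by positivity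
        linarith

end mult

/-- **S_ARC** -/
theorem arc : S_ARC := by
  intro A hA
  refine ⟨10 ^ 5 * A ^ 2, ?_, ?_⟩
  · nlinarith
  · intro K _ _ v hnat a b c x y ha hb hc hD n hn ht
    by_contra hcon
    push Not at hcon
    obtain ⟨h, hnP⟩ := ht
    let _ : DecidableEq K := Classical.decEq K
    obtain ⟨x', y', h', he, -⟩ := mult_arc hA hnat ha hb hc hn h hcon n
      (Nat.one_le_iff_ne_zero.2 hn) le_rfl
    exact Affine.Point.some_ne_zero h' (he.symm.trans hnP)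

end Pool.Agent.Q53.TT.ARC
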